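import Pool.Agent.helper3.SP.SpecPP

/-!
# Project sp, module PK3: from the bit of a gate to the core
-/

namespace TP

open DP MeasureTheory

/-- Two crossing clusters of a gate with bit one are connected in the box. -/
theorem PK3_box {c : V → Bool} {x q q' r r' : V} {m n : ℕ} (hG : ¬ Three c x m n)
    (hb : hb c x m n) (hq : q ∈ bd x n) (hq' : q' ∈ bd x n) (hr : r ∈ bd x m) (hr' : r' ∈ bd x m)
    (h1 : Conn c true (ann x m n) r q) (h2 : Conn c true (ann x m n) r' q')
    (hne : ¬ Conn c true (ann x m n) q q') : Conn c true (box x n) q q' := by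
  obtain ⟨u, hu, v, hv, ⟨p, hp, hpu⟩, ⟨s, hs, hsv⟩, huv, hbox⟩ := hb
  have hsub : ann x m n ⊆ box x n := ann_subset_box x m n
  have hrr : ¬ Conn c true (ann x m n) r r' := fun h => hne ((h1.symm.trans h).trans h2)
  have hps : ¬ Conn c true (ann x m n) p s := fun h => huv ((hpu.symm.trans h).trans hsv)
  have key : ∀ t ∈ bd x m, (∃ t' ∈ bd x n, Conn c true (ann x m n) t t') →
      Conn c true (ann x m n) r t ∨ Conn c true (ann x m n) r' t := by
    intro t ht ht'
    by_contra hcon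
    rw [not_or] at hcon
    exact hG ⟨r, hr, r', hr', t, ht, ⟨q, hq, h1⟩, ⟨q', hq', h2⟩, ht', hrr, hcon.2, hcon.1⟩
  rcases key p hp ⟨u, hu, hpu⟩ with h3 | h3
  · rcases key s hs ⟨v, hv, hsv⟩ with h4 | h4
    · exact absurd (h3.symm.trans h4) hps
    · have e1 : Conn c true (box x n) q u := ((h1.symm.trans h3).trans hpu).mono hsub
      have e2 : Conn c true (box x n) v q' := ((hsv.symm.trans h4.symm).trans h2).mono hsub
      exact (e1.trans hbox).trans e2
  · rcases key s hs ⟨v, hv, hsv⟩ with h4 | h4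
    · have e1 : Conn c true (box x n) q v := ((h1.symm.trans h4).trans hsv).mono hsub
      have e2 : Conn c true (box x n) u q' := ((hpu.symm.trans h3.symm).trans h2).mono hsub
      exact (e1.trans hbox.symm).trans e2
    · exact absurd (h3.symm.trans h4) hps

/-- Two arms through a gate with bit one. -/
theorem PK3_arms {c : V → Bool} {x p p' u u' : V} {M m n N : ℕ} {R : Set V} (hMm : M ≤ m)
    (hmn : m ≤ n) (hnN : n ≤ N) (hG : ¬ Three c x m n) (hb : hb c x m n) (hR : box x n ⊆ R)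
    (hRN : R ⊆ box x N) (hp : p ∈ bd x M) (hp' : p' ∈ bd x M) (hu : u ∈ bd x N)
    (hu' : u' ∈ bd x N) (h1 : Conn c true (R ∩ {v | M ≤ sd x v}) p u)
    (h2 : Conn c true (R ∩ {v | M ≤ sd x v}) p' u') (hne : ¬ Conn c true (ann x M N) u u') :
    Conn c true R u u' := by
  have hp1 : sd x p = M := hp
  have hp1' : sd x p' = M := hp'
  have hu1 : sd x u = N := hu
  have hu1' : sd x u' = N := hu'
  obtain ⟨r, q, hr, hq, h3, -, h5⟩ := Con.cross (x := x) (m := m) (n := n) h1 (by omega) hmn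
    (by omega)
  obtain ⟨r', q', hr', hq', h3', -, h5'⟩ := Con.cross (x := x) (m := m) (n := n) h2 (by omega) hmn
    (by omega)
  have hW : {w | w ∈ R ∩ {v | M ≤ sd x v} ∧ c w = true} ∩ ann x m n ⊆
      {w | w ∈ ann x m n ∧ c w = true} := fun w hw => ⟨hw.2, hw.1.2⟩
  have h3a : Conn c true (ann x m n) r q := Con.mono hW h3
  have h3a' : Conn c true (ann x m n) r' q' := Con.mono hW h3'
  have h5a : Conn c true (R ∩ {v | M ≤ sd x v}) q u := h5
  have h5a' : Conn c true (R ∩ {v | M ≤ sd x v}) q' u' := h5'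
  have hsub : R ∩ {v | M ≤ sd x v} ⊆ ann x M N := fun w hw => ⟨hw.2, hRN hw.1⟩
  have hsub2 : ann x m n ⊆ ann x M N := fun w hw => ⟨hMm.trans hw.1, hw.2.trans hnN⟩
  have hne' : ¬ Conn c true (ann x m n) q q' := fun h =>
    hne (((h5a.mono hsub).symm.trans (h.mono hsub2)).trans (h5a'.mono hsub))
  have h6 := PK3_box hG hb hq hq' hr hr' h3a h3a' hne'
  exact ((h5a.mono Set.inter_subset_left).symm.trans (h6.mono hR)).trans
    (h5a'.mono Set.inter_subset_left)

/-- The two arms of colour `k`. -/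
theorem PK3_mrk {c : V → Bool} {k : Bool} {x : V} {M N : ℕ}
    (h : MrkC c 4 true x N (Dmark 4 x M) (zpt x N) (N / 64) (N / 8) k) :
    ∃ p ∈ bd x M, ∃ p' ∈ bd x M, ∃ u ∈ bd x N, ∃ u' ∈ bd x N,
      sd (zpt x N (if k = true then 0 else 1)) u ≤ N / 64 ∧
      sd (zpt x N (if k = true then 2 else 3)) u' ≤ N / 64 ∧
      Conn c k ((box x N \ opp 4 (zpt x N) (N / 8) k) ∩ {v | M ≤ sd x v}) p u ∧
      Conn c k ((box x N \ opp 4 (zpt x N) (N / 8) k) ∩ {v | M ≤ sd x v}) p' u' := by
  have hsub : HS true x N \ ((Dmark 4 x M).N k ∪ opp 4 (zpt x N) (N / 8) k) ⊆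
      (box x N \ opp 4 (zpt x N) (N / 8) k) ∩ {v | M ≤ sd x v} := by
    rintro w ⟨hw1, hw2⟩
    refine ⟨⟨hw1, fun h => hw2 (Or.inr h)⟩, ?_⟩
    by_contra hcon
    have hcon' : sd x w < M := not_le.1 hcon
    exact hw2 (Or.inl (Or.inl hcon'))
  have hk : ∀ k : Bool, kol (if k = true then 0 else 1) = k ∧ kol (if k = true then 2 else 3) = k := by
    intro k
    cases k <;> decide
  have hlt : ∀ k : Bool, (if k = true then 0 else 1) < 4 ∧ (if k = true then 2 else 3) < 4 := by
    intro k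
    cases k <;> decide
  rcases h with h | h
  · obtain ⟨p, hp, u, hu, h1, h2⟩ := h _ (hlt k).1 (hk k).1
    obtain ⟨p', hp', u', hu', h1', h2'⟩ := h _ (hlt k).2 (hk k).2
    exact ⟨p, hp.1, p', hp'.1, u, hu, u', hu', h1, h1', h2.mono hsub, h2'.mono hsub⟩
  · obtain ⟨p, hp, u, hu, h1, h2⟩ := h _ (hlt k).1 (hk k).1
    obtain ⟨p', hp', u', hu', h1', h2'⟩ := h _ (hlt k).2 (hk k).2
    have e1 : ((if k = true then 0 else 1) + 2) % 4 = if k = true then 2 else 3 := by
      cases k <;> rfl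
    have e2 : ((if k = true then 2 else 3) + 2) % 4 = if k = true then 0 else 1 := by
      cases k <;> rfl
    rw [e1] at h1
    rw [e2] at h1'
    exact ⟨p', hp'.1, p, hp.1, u', hu', u, hu, h1', h1, h2'.mono hsub, h2.mono hsub⟩

theorem PK3_zpt (x : V) (n i : ℕ) : sd x (zpt x n i) = n := by
  unfold zpt sd
  split_ifs <;> simp

/-- The inner box avoids the opposite points. -/
theorem PK3_opp {k : Bool} {x : V} {n N : ℕ} (h : N / 8 + n < N) :
    box x n ⊆ box x N \ opp 4 (zpt x N) (N / 8) k := by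
  intro v hv
  have hv' : sd x v ≤ n := hv
  refine ⟨show sd x v ≤ N by omega, ?_⟩
  rintro ⟨l, -, -, hl⟩
  have h1 := sd_triangle x v (zpt x N l)
  rw [PK3_zpt, sd_comm v] at h1
  omega

/-- Connections of the flipped colouring. -/
theorem PK3_fl (c : V → Bool) (R : Set V) (u v : V) :
    Conn (fl c) true R u v ↔ Conn c false R u v := by
  have : {w | w ∈ R ∧ fl c w = true} = {w | w ∈ R ∧ c w = false} := by
    ext w
    simp [fl]
  unfold Conn
  rw [this]

/-- **PK3**. -/
theorem PK3 (hP : PP30_stmt) (hD : DUAL_stmt) (hG1 : GD1_stmt) : PK3_stmt := by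
  intro b y g a hg ha hy hbG hhb hz
  obtain ⟨z, hz1, hz2, hz3⟩ := hz
  obtain ⟨hgate, hstd⟩ := hbG
  have hgate : Gate (col b) y (2 ^ a) (2 ^ (a + g)) := hgate
  have hstd : Std (col b) 4 true y (2 ^ (a + g + 1)) (Dmark 4 y (2 ^ (a - 1))) := hstd
  have hev : Even (y.1 + y.2) := Int.even_iff.2 hy
  obtain ⟨d, rfl⟩ : ∃ d, a = d + 1 := ⟨a - 1, by omega⟩
  rw [Nat.add_sub_cancel] at hstd hz2
  generalize col b = c at *
  have hM : 64 ≤ 2 ^ d := by
    calc 64 = 2 ^ 6 := by norm_num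
      _ ≤ 2 ^ d := Nat.pow_le_pow_right (by norm_num) (by omega)
  have h1 : 2 ^ d ≤ 2 ^ (d + 1) := Nat.pow_le_pow_right (by norm_num) (by omega)
  have h2 : 2 ^ (d + 1) < 2 ^ (d + 1 + g) := Nat.pow_lt_pow_right (by norm_num) (by omega)
  have h3 : 2 ^ (d + 1 + g + 1) = 2 * 2 ^ (d + 1 + g) := by ring
  have h4 : 2 * 2 ^ d = 2 ^ (d + 1) := by ring
  rw [h3] at hstd ⊢
  generalize 2 ^ (d + 1 + g) = n at *
  generalize 2 ^ (d + 1) = m at *
  generalize 2 ^ d = M at *
  have hopp : ∀ k, box y n ⊆ box y (2 * n) \ opp 4 (zpt y (2 * n)) (2 * n / 8) k := fun k =>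
    PK3_opp (by omega)
  have hRN : ∀ k, box y (2 * n) \ opp 4 (zpt y (2 * n)) (2 * n / 8) k ⊆ box y (2 * n) := fun k =>
    Set.sdiff_subset
  have hRA : ∀ k, (box y (2 * n) \ opp 4 (zpt y (2 * n)) (2 * n / 8) k) ∩ {v | M ≤ sd y v} ⊆
      ann y M (2 * n) := fun k w hw => ⟨hw.2, hw.1.1⟩
  constructor
  · obtain ⟨p, hp, p', hp', u, hu, u', hu', e1, e2, e3, e4⟩ := PK3_mrk hstd.1
    have hne := hP c true y u u' p p' M (2 * n) hev hM (by omega) hstd hu hu' hp hp' e1 e2
      (e3.mono (hRA _)) (e4.mono (hRA _))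
    exact ⟨u, hu, u', hu', e1, e2, PK3_arms h1 h2.le (by omega) hgate.2 hhb (hopp _) (hRN _) hp hp'
      hu hu' e3 e4 hne⟩
  · obtain ⟨p, hp, p', hp', u, hu, u', hu', e1, e2, e3, e4⟩ := PK3_mrk hstd.2
    have hne := hP c false y u u' p p' M (2 * n) hev hM (by omega) hstd hu hu' hp hp' e1 e2
      (e3.mono (hRA _)) (e4.mono (hRA _))
    have hbz : br z = z := by
      unfold br
      rw [if_pos hz1]
    have hc : ∀ v, M ≤ sd y v → c v = rc c z false v := by
      intro v hv
      unfold rc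
      rw [if_neg]
      intro h
      rw [hbz] at h
      have h5 : sd v (br v) ≤ 1 := by
        unfold br sd
        split_ifs <;> simp
      rw [h] at h5
      have h6 := sd_triangle y z v
      rw [sd_comm z v] at h6
      omega
    have hA : ∀ (k : Bool) (s t : V), Conn c k (ann y m n) s t ↔ Conn (rc c z false) k (ann y m n) s t :=
      fun k s t => Conn.congr fun v hv => hc v (h1.trans hv.1)
    have hA2 : ∀ (k : Bool) (s t : V), Conn c k (ann y M (2 * n)) s t ↔
        Conn (rc c z false) k (ann y M (2 * n)) s t :=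
      fun k s t => Conn.congr fun v hv => hc v hv.1
    have hgate' : Gate (rc c z false) y m n := by
      unfold Gate four twoCl Three at hgate ⊢
      simp only [← hA]
      exact hgate
    have hhb' : hb (fl (rc c z false)) y m n := by
      by_contra hcon
      exact hz3 ((hD _ y m n hev (by omega) h2 hgate').2 hcon)
    have hT : ¬ Three (fl (rc c z false)) y m n := fun h =>
      hgate'.2 ((hG1 _ y m n hev (by omega) h2).2.1.1 h)
    have e3' : Conn (fl (rc c z false)) true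
        ((box y (2 * n) \ opp 4 (zpt y (2 * n)) (2 * n / 8) false) ∩ {v | M ≤ sd y v}) p u := by
      rw [PK3_fl, ← Conn.congr fun v hv => hc v hv.2]
      exact e3
    have e4' : Conn (fl (rc c z false)) true
        ((box y (2 * n) \ opp 4 (zpt y (2 * n)) (2 * n / 8) false) ∩ {v | M ≤ sd y v}) p' u' := by
      rw [PK3_fl, ← Conn.congr fun v hv => hc v hv.2]
      exact e4
    have hne' : ¬ Conn (fl (rc c z false)) true (ann y M (2 * n)) u u' := by
      rw [PK3_fl, ← hA2]
      exact hne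
    have h7 := PK3_arms h1 h2.le (by omega) hT hhb' (hopp false) (hRN false) hp hp' hu hu' e3' e4' hne'
    rw [PK3_fl] at h7
    exact ⟨z, hz1, by omega, u, hu, u', hu', e1, e2, h7⟩

end TP
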