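import Pool.Agent.helper96.SP.SpecTB

/-!
# Project sp, module TB6: extension of all arms of one colour
-/

namespace TP

open DP MeasureTheory

theorem TB6_zp (x : V) (n i : ℕ) : sd x (zp6 x n i) = n := by
  unfold zp6 sd
  split_ifs <;> simp <;> omega

theorem TB6_conf_symm {i j : ℕ} (h : conf i j) : conf j i :=
  ⟨h.1.symm, h.2.elim (fun h => Or.inl h.symm) fun h => Or.inr h.symm⟩

/-- Sites of the new arms: the three kinds, and the geometry of each kind. -/
theorem TB6 (hTB5 : TB5_stmt) : TB6_stmt := by
  intro c k s x i d e η h K E E' gs hdη heη h3e hηh hhi hG hF hR hA hL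
  obtain ⟨l, hl1, hl2⟩ := hA
  -- numbers
  set a := 2 ^ (i - η) with ha
  set A := 2 ^ (i - e) with hAdef
  set B := 2 ^ i with hB
  set ℓ := 2 ^ (i - h) with hℓ
  have ha1 : 1 ≤ a := Nat.one_le_two_pow
  have haB : 32 * a ≤ B := by
    have : 32 * 2 ^ (i - η) = 2 ^ (5 + (i - η)) := by rw [pow_add]; norm_num
    rw [ha, hB, this]
    exact Nat.pow_le_pow_right (by norm_num) (by omega)
  have haA : 4 * a ≤ A := by
    have : 4 * 2 ^ (i - η) = 2 ^ (2 + (i - η)) := by rw [pow_add]; norm_num
    rw [ha, hAdef, this]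
    exact Nat.pow_le_pow_right (by norm_num) (by omega)
  have hAB : 8 * A ≤ B := by
    have : 8 * 2 ^ (i - e) = 2 ^ (3 + (i - e)) := by rw [pow_add]; norm_num
    rw [hB, hAdef, this]
    exact Nat.pow_le_pow_right (by norm_num) (by omega)
  have had : 8 * a ≤ 2 ^ (i - d) := by
    have : 8 * 2 ^ (i - η) = 2 ^ (3 + (i - η)) := by rw [pow_add]; norm_num
    rw [ha, this]
    exact Nat.pow_le_pow_right (by norm_num) (by omega)
  have hEn : E.n = B := hG.n_eq
  have hEa : E.a = a := hG.a_eq
  have hEA : E.A = A := hG.A_eq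
  set N := nx s B with hN
  have hNt : s = true → N = 2 * B := by rintro rfl; rfl
  have hNf : s = false → N = B / 2 := by rintro rfl; rfl
  have hFt : s = true → 4 * E'.n ≤ B := by
    rintro rfl
    simpa using hF.dist
  have hFf : s = false → 4 * B ≤ E'.n := by
    rintro rfl
    simpa using hF.dist
  have hyB : ∀ j < 6, sd x (E.y j) = B := fun j hj => hG.mem j hj
  have hyE' : ∀ j < 6, sd x (E'.y j) = E'.n := fun j hj => hF.mem j hj
  have hwin := hF.win
  have hHSt : ∀ {v : V} {n : ℕ}, s = true → (v ∈ HS s x n ↔ sd x v ≤ n) := by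
    rintro v n rfl
    rfl
  have hHSf : ∀ {v : V} {n : ℕ}, s = false → (v ∈ HS s x n ↔ n ≤ sd x v) := by
    rintro v n rfl
    rfl
  have hs : s = true ∨ s = false := by cases s <;> simp
  -- the old paths
  have hrg : ∀ j, ∀ v ∈ rg6 x E E' j, v ∈ HS s x B := by
    rintro j v ⟨⟨hv1, hv2⟩, -⟩
    rw [hEn] at hv1 hv2
    rcases hs with h0 | h0
    · rw [hHSt h0]
      have := hFt h0
      omega
    · rw [hHSf h0]
      have := hFf h0
      omega
  -- new paths
  have hnew : ∀ j, ∃ (l' : List V) (p w : V), j < 6 → kol6 j = k →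
      p ∈ bd x E'.n ∧ sd (E'.y j) p ≤ E'.a ∧ w ∈ bd x N ∧ w ∈ reg ℓ (gs j) ∧
        IsPath {v | c v = k ∧ v ∈ HS s x N ∧
          (v ∈ l j ∨ sd (E.y j) v < 3 * a ∨ v ∈ reg ℓ (gs j))} l' p w := by
    intro j
    by_cases hj : j < 6 ∧ kol6 j = k
    · obtain ⟨hj6, hjk⟩ := hj
      obtain ⟨p, u, hp, hp', hu, hu', hpath⟩ := hl1 j hj6 hjk
      have hpx : sd x p = E'.n := hp
      have hfar : 3 * a ≤ sd (E.y j) p := by
        have h1 := hyB j hj6
        have h2 := sd_triangle x (E.y j) p
        have h3 := sd_triangle x p (E.y j)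
        rw [sd_comm p] at h3
        rcases hs with h0 | h0
        · have := hFt h0
          omega
        · have := hFf h0
          omega
      obtain ⟨w, l', hw, hwr, hl'⟩ := hTB5 c k s x (E.y j) p u i η h (l j) (gs j) (by omega) hηh hhi
        (hG.mem j hj6) (by rw [hEa] at hu'; exact hu') hfar
        (hpath.mono fun v hv => ⟨hrg j v hv.1, hv.2⟩)
        (by have := (hL j hj6 hjk).1; rwa [hEa] at this) (hL j hj6 hjk).2 (hR.chn j hj6)
        (hR.hd j hj6) (hR.last j hj6)
      exact ⟨l', p, w, fun _ _ => ⟨hp, hp', hw, hwr, hl'⟩⟩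
    · exact ⟨[], x, x, fun h1 h2 => absurd ⟨h1, h2⟩ hj⟩
  choose l' p w hlw using hnew
  -- geometry of the sites
  have hreg : ∀ j < 6, ∀ v ∈ reg ℓ (gs j), ∃ g ∈ gs j, sd g v < 3 * ℓ := fun j _ v hv => hv
  have hregfar : ∀ j < 6, ∀ v ∈ reg ℓ (gs j), v ∈ HS s x N →
      (s = true → B ≤ sd x v + A) ∧ (s = false → sd x v ≤ B + A) := by
    intro j hj v hv hvN
    obtain ⟨g, hg, hgv⟩ := hreg j hj v hv
    have h1 := hyB j hj
    have h2 := sd_triangle x (E.y j) v
    have h3 := sd_triangle x v (E.y j)
    rw [sd_comm v] at h3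
    by_cases hvB : v ∈ HS s x B
    · have h4 := hR.near j hj g hg v hgv.le hvB
      constructor <;> intro h0 <;> omega
    · constructor
      · intro h0
        rw [hHSt h0] at hvB
        omega
      · intro h0
        rw [hHSf h0] at hvB
        omega
  have hbig : ∀ j < 6, ∀ v, sd (E.y j) v < 3 * a → B ≤ sd x v + A ∧ sd x v ≤ B + A := by
    intro j hj v hv
    have h1 := hyB j hj
    have h2 := sd_triangle x (E.y j) v
    have h3 := sd_triangle x v (E.y j)
    rw [sd_comm v] at h3
    omega
  -- sites near the first circle avoid the windows of the other end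
  have havE' : ∀ v, (s = true → B ≤ sd x v + A) ∧ (s = false → sd x v ≤ B + A) → ∀ j,
      v ∉ av6 j E' := by
    rintro v ⟨hv1, hv2⟩ j ⟨j', hj', -, hjv⟩
    have h1 := hyE' j' hj'
    have h2 := sd_triangle x (E'.y j') v
    have h3 := sd_triangle x v (E'.y j')
    rw [sd_comm v] at h3
    rcases hs with h0 | h0
    · have h4 := hv1 h0
      have h5 := hFt h0
      omega
    · have h4 := hv2 h0
      have h5 := hFf h0
      omega
  refine ⟨l', ?_, ?_⟩
  · intro j hj hjk
    obtain ⟨h1, h2, h3, h4, h5⟩ := hlw j hj hjk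
    obtain ⟨g, hg, hgv⟩ := hreg j hj _ h4
    refine ⟨p j, w j, h1, h2, h3, hR.std j hj g hg _ hgv.le h3, h5.mono ?_⟩
    rintro v ⟨hvk, hvN, hv⟩
    refine ⟨⟨?_, ?_, ?_⟩, hvk⟩
    · -- annulus
      show min N E'.n ≤ sd x v ∧ sd x v ≤ max N E'.n
      have key : (s = true → E'.n ≤ sd x v) ∧ (s = false → sd x v ≤ E'.n) := by
        rcases hv with hv | hv | hv
        · obtain ⟨p', u', -, -, -, -, hpath⟩ := hl1 j hj hjk
          obtain ⟨⟨hv1, hv2⟩, -⟩ := (hpath.2.2.2 v hv).1
          rw [hEn] at hv1 hv2
          constructor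
          · intro h0
            have := hFt h0
            omega
          · intro h0
            have := hFf h0
            omega
        · have h6 := hbig j hj v hv
          constructor
          · intro h0
            have := hFt h0
            omega
          · intro h0
            have := hFf h0
            omega
        · have h6 := hregfar j hj v hv hvN
          constructor
          · intro h0
            have := hFt h0
            have := h6.1 h0
            omega
          · intro h0
            have := hFf h0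
            have := h6.2 h0
            omega
      rcases hs with h0 | h0
      · rw [hHSt h0] at hvN
        have := key.1 h0
        omega
      · rw [hHSf h0] at hvN
        have := key.2 h0
        omega
    · -- windows of the next circle
      rintro ⟨j', hj', hc, hjv⟩
      change sd (zp6 x N j') v ≤ N / 8 at hjv
      have hz := TB6_zp x N j'
      have h7 := sd_triangle x (zp6 x N j') v
      have h8 := sd_triangle x v (zp6 x N j')
      rw [sd_comm v] at h8
      have far : (s = true → sd x v ≤ B + A) ∧ (s = false → B ≤ sd x v + A) → False := by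
        rintro ⟨f1, f2⟩
        rcases hs with h0 | h0
        · have := hNt h0
          have := f1 h0
          omega
        · have := hNf h0
          have := f2 h0
          omega
      rcases hv with hv | hv | hv
      · obtain ⟨p', u', -, -, -, -, hpath⟩ := hl1 j hj hjk
        have h9 := hrg j v (hpath.2.2.2 v hv).1
        apply far
        constructor
        · intro h0
          rw [hHSt h0] at h9
          omega
        · intro h0
          rw [hHSf h0] at h9
          omega
      · have h6 := hbig j hj v hv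
        exact far ⟨fun _ => h6.2, fun _ => h6.1⟩
      · obtain ⟨g', hg', hgv'⟩ := hreg j hj v hv
        have h10 : N / 8 < sd (zp6 x N j') v := hR.oth j hj j' hj' hc.1.symm g' hg' v hgv'.le
        omega
    · -- windows of the other end
      rcases hv with hv | hv | hv
      · obtain ⟨p', u', -, -, -, -, hpath⟩ := hl1 j hj hjk
        exact (hpath.2.2.2 v hv).1.2.2
      · have h6 := hbig j hj v hv
        exact havE' v ⟨fun _ => h6.1, fun _ => h6.2⟩ j
      · exact havE' v (hregfar j hj v hv hvN) j
  · -- brick-disjointness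
    intro j hj j' hj' hjk hjk' hc v hv v' hv' hbr
    have hsd := br_eq_sd hbr
    obtain ⟨-, -, -, -, h5⟩ := hlw j hj hjk
    obtain ⟨-, -, -, -, h5'⟩ := hlw j' hj' hjk'
    obtain ⟨-, hvN, hv⟩ := h5.2.2.2 v hv
    obtain ⟨-, hvN', hv'⟩ := h5'.2.2.2 v' hv'
    -- an old path and the new part of another arm
    have hold : ∀ (q q' : ℕ), q < 6 → q' < 6 → kol6 q = k → conf q q' → ∀ z ∈ l q, ∀ z',
        sd z z' ≤ 1 → (sd (E.y q') z' < 3 * a ∨ z' ∈ reg ℓ (gs q')) → False := by
      intro q q' hq hq' hqk hcq z hz z' hzz hz'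
      obtain ⟨p', u', -, -, -, -, hpath⟩ := hl1 q hq hqk
      have hzr := (hpath.2.2.2 z hz).1
      have hzA : A < sd (E.y q') z := by
        by_contra hcon
        refine hzr.2.1 ⟨q', hq', hcq, ?_⟩
        rw [hEA]
        omega
      rcases hz' with hz' | hz'
      · have h6 := sd_triangle (E.y q') z' z
        rw [sd_comm z' z] at h6
        omega
      · obtain ⟨g, hg, hgz⟩ := hreg q' hq' z' hz'
        have h6 := sd_triangle g z' z
        rw [sd_comm z' z] at h6
        have h7 := hR.near q' hq' g hg z (by omega) (hrg q z hzr)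
        omega
    rcases hv with hv | hv | hv <;> rcases hv' with hv' | hv' | hv'
    · exact hl2 j hj j' hj' hjk hjk' hc v hv v' hv' hbr
    · exact hold j j' hj hj' hjk hc v hv v' hsd (Or.inl hv')
    · exact hold j j' hj hj' hjk hc v hv v' hsd (Or.inr hv')
    · exact hold j' j hj' hj hjk' (TB6_conf_symm hc) v' hv' v (by rwa [sd_comm]) (Or.inl hv)
    · have h6 := hG.sep j hj j' hj' hc.1
      have h7 := sd_triangle (E.y j) v (E.y j')
      have h8 := sd_triangle v v' (E.y j')
      rw [sd_comm v' (E.y j')] at h8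
      omega
    · have h6 := hR.big j hj j' hj' hc.1.symm v' hv'
      have h7 := sd_triangle (E.y j) v v'
      omega
    · exact hold j' j hj' hj hjk' (TB6_conf_symm hc) v' hv' v (by rwa [sd_comm]) (Or.inr hv)
    · have h6 := hR.big j' hj' j hj hc.1 v hv
      have h7 := sd_triangle (E.y j') v' v
      rw [sd_comm v' v] at h7
      omega
    · have h6 := hR.sep j hj j' hj' hc.1.symm v hv v' hv'
      omega

end TP
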